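import Mathlib
import Pool.Agent.Y638.RF.Xor

/-!
# OMV over the field with two elements: branching programs which test real formulas

The decision version of OMV over `ZMod 2`: given an `n × n` matrix `M` and `n` pairs `(u_i, v_i)` of
vectors, is some product `u_iᵀ M v_i` equal to one? The items of the input are the matrix and the
pairs.

A real formula (`Fml`) is built from real constants, arbitrary real functions of one item (so
everything that can be computed from the matrix alone is free, with unlimited precision), and
arbitrary real functions of `w` words of `c` bits, where each word is an arbitrary function of one
item, by sums, products, sign tests `pos` (with the values `0`, `1`), and gates `sym` of any fan-in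
whose value is an arbitrary real function of the number of positive inputs. So it may contain parity
gates and threshold gates of unbounded fan-in, gates which test the sign of arithmetic formulas, and
arbitrary symmetric gates, nested in any way. It accepts if its value is positive. Its size is the
number of leaves (constants are free) plus the number of wires which lead to gates `sym`. In a
branching program (`Program`) every inner node tests whether a real formula accepts; its size is the
number of inner nodes plus the sizes of all these formulas. A formula is a program with one inner node.

We show that random branching programs of size at most `s` with error probability at most `1 / 3` need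
`n ^ 3 ≤ 5000 (c + log₂ n) w ^ 2 s`. Multiplication by words of length `c` is a program with one inner
node and size `2 n ^ 2 (⌊n / c⌋ + 1) + 1` with `w = 2` and words of length `c + 1`, so this is optimal up
to a constant factor for all `c` between `log₂ n` and `n`.

Proof. The pair `(u_i, v_i)` can ask for each of the `n ^ 2` entries of the matrix. We count the
functions of this pair (on the pairs of unit vectors) which arise when the other items are fixed:
between the `r` leaves which see the pair there are `O (r)` places at which other parts of the formula
enter, the function of the value below such a place is affine or an affine function of a threshold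
test, and the number of sign patterns is bounded by Warren's theorem (`Pool.Agent.Y638.RF.Core`).
-/

set_option autoImplicit false

namespace Pool.Agent.Results.MP_0f1f76_lc.RealPrograms

open Pool.Agent.TH697.Form (IsProb)
open Pool.Agent.TH697.Row (ApproximatesOn)
open Pool.Agent.Y638.RF (Program exists_program)
open Pool.Agent.Y638.RF.Xor (Item product)

theorem result :
    (∀ n c w : ℕ, 32 ≤ n → 1 ≤ c → 1 ≤ w →
      ∀ (Ω : Type) [Fintype Ω] (μ : Ω → ℝ), IsProb μ →
        ∀ (s : ℕ) (B : Ω → Program (Option (Fin n)) (Item n) w (2 ^ c) s),
          ApproximatesOn μ (fun ω => (B ω).eval) (fun _ => True) (product n) →
          (n : ℝ) ^ 3 ≤ 5000 * (c + Real.logb 2 n) * w ^ 2 * s) ∧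
    (∀ n c : ℕ, 1 ≤ c →
      ∃ B : Program (Option (Fin n)) (Item n) 2 (2 ^ (c + 1)) (2 * n ^ 2 * (n / c + 1) + 1),
        B.nodes = 1 ∧ ∀ x, B.eval x = product n x) := by
  refine ⟨fun _ _ _ hn hc hw _ _ μ hμ s B hB =>
    Pool.Agent.Y638.RF.Xor.program_bound hn hc hw μ hμ s B hB, fun n c hc => ?_⟩
  obtain ⟨F, h1, h2⟩ := Pool.Agent.Y638.RF.Xor.upper (n := n) hc
  obtain ⟨B, h3, h4⟩ := exists_program F (2 * n ^ 2 * (n / c + 1) + 1) (by omega)
  exact ⟨B, h3, fun x => (h4 x).trans (h2 x)⟩

end Pool.Agent.Results.MP_0f1f76_lc.RealPrograms
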