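import Pool.Agent.Y631.TrMvUp

/-!
# Matrix-vector products over a finite field: reads times treewidth is `Θ(n ^ 2 m)`

Circuits (`Net`) over a finite field `F` (for instance with two elements) which compute the products
of a fixed `n × n` matrix `M` with `m` vectors: the gates have values in `F`, compute arbitrary
functions and may have any fan-in, there is no bound on the number of gates or on the number of the
gates which use the value of a gate. The circuit may depend on `M` in an arbitrary way (so `M` may be
preprocessed without any bound), and it sees all `m` vectors at the same time. Only two parameters
count: the number `r` of the wires from entries of the vectors to gates (the number of the reads; it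
is at most the size), and the treewidth `t` of the graph of the gates (with the wires between gates
as edges, the inputs are deleted).

(1) For all but a `2 ^ (- ⌊n / 4⌋)` fraction of the `n × n` matrices `M`: if random circuits with at
most `r` reads and treewidth at most `t` compute the products with `m` random vectors with
probability at least `|F| ^ (- π)` only, then `n ^ 2 m ≤ 2 ^ 14 (t + 1 + π) (r + n)`.

(2) For all matrices, `m ≥ 1` and `1 ≤ s ≤ n` there is a circuit of fan-in two with treewidth at most
`s + 1` and at most `2 n ^ 2 m / s` reads which is always right.

So reads times treewidth is of the exact order `n ^ 2 m`. For `m = n` vectors, as in online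
matrix-vector multiplication, a circuit, or any algorithm whose graph of computation steps is such a
circuit, has `n ^ (3 - ε)` reads only if its treewidth is at least of order `n ^ ε`, although the
matrix is preprocessed for free, and the vectors need not come online.

The starting result `StackTradeoff` is about programs with few nodes and a stack, which read
adaptively. A circuit of treewidth `t` and size `L` can be evaluated with `O(t log L)` registers, which
gives the bound (1) with an additional factor `log L`; here there is no such factor, and the size is
not bounded at all. The ranks of the submatrices of most matrices are taken from the library of that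
result (`Pool.Agent.W896.MO.rows_count`, `bad_count`).

Proof of (1). Let `w = ⌊n / 32⌋`. By an induction from below the tree decomposition is cut at
`O(r / w)` of its nodes, and the gates are covered by pieces, such that each piece reads at most `w`
entries, and the number of the bags at the boundaries of all pieces together is `O(r / w + 1)`
(`Pool.Agent.Y631.Tr.region`). For given values of the gates of the boundary all gates of a piece are
functions of the entries which are read in it. If `K` outputs belong to the piece, then these are
right with probability at most `|F| ^ (- K / 16)`, because after removing any `n / 32` columns the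
rank of any `K` rows of `M` is at least `K / 16`. So `K / 16 ≤ π + b (t + 1)`, where `b` is the number
of bags at the boundary of the piece; the sum over all pieces is at least `n m`.
-/

set_option autoImplicit false

namespace Pool.Agent.Results.MP_0f1f76_lc.TreewidthTimesReads

open Pool.Agent.Y631.Tr

/-- The products of the matrix `M` with the vectors `v 1, ..., v m`: the entry `i` of the product
with the vector `v j` is the entry `(j, i)`. -/
def mv {F : Type} [Field F] {n m : ℕ} (M : Fin n → Fin n → F) (v : Fin m × Fin n → F) :
    Fin m × Fin n → F :=
  fun o => ∑ k, M o.2 k * v (o.1, k)

/-- (1) Let `n ≥ 32`. All but a fraction of `2 ^ (- ⌊n / 4⌋)` of the `n × n` matrices `M` over `F`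
(those which are not in `Bad`) have the following property. Let `C i` be circuits with at most `r`
reads and of treewidth at most `t`, such that with probability at least `|F| ^ (- π)` over a random
`i` and a random `m`-tuple `v` of vectors the circuit `C i` computes all entries of the products of
`M` with the vectors of `v`. Then `n² m ≤ 2 ^ 14 (t + 1 + π) (r + n)`.
(2) For all `M`, `m ≥ 1` and `1 ≤ s ≤ n` there is a circuit of fan-in at most two and of treewidth at
most `s + 1`, with at most `2 n² m / s` reads, which computes the products for all `v`. -/
theorem result (F : Type) [Field F] [Fintype F] :
    (∀ n ≥ 32, ∃ Bad : Set (Fin n → Fin n → F),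
      Nat.card Bad * 2 ^ (n / 4) ≤ Fintype.card F ^ (n * n) ∧
      ∀ M, M ∉ Bad → ∀ (m t r π : ℕ) (R : Type) [Fintype R] [Nonempty R]
        (C : R → Net (Fin m × Fin n) (Fin m × Fin n) F),
        (∀ i, (C i).reads ≤ r ∧ (C i).TreewidthLE t) →
        Nat.card R * Fintype.card F ^ (n * m) ≤ Fintype.card F ^ π *
          Nat.card {u : R × (Fin m × Fin n → F) // (C u.1).Computes u.2 (mv M u.2)} →
        n ^ 2 * m ≤ 2 ^ 14 * ((t + 1 + π) * (r + n))) ∧
    (∀ (n m s : ℕ), 0 < m → 0 < s → s ≤ n → ∀ M : Fin n → Fin n → F,
      ∃ C : Net (Fin m × Fin n) (Fin m × Fin n) F, (∀ g, C.arity g ≤ 2) ∧
        C.TreewidthLE (s + 1) ∧ C.reads * s ≤ 2 * (n ^ 2 * m) ∧ ∀ v, C.Computes v (mv M v)) :=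
  ⟨fun n hn => mv_nets n hn, fun _ _ _ hm hs hsn M => mv_upper hm hs hsn M⟩

end Pool.Agent.Results.MP_0f1f76_lc.TreewidthTimesReads
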